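import Pool.Agent.V8H2.MQ.Count

set_option autoImplicit false

/-!
# Many indices in a residue class which start the same pattern of primes
-/

namespace Pool.Agent.V8H84.BG

open Finset Filter Polynomial

/-- the pattern of primes after `n` -/
lemma nth_pattern (n K : ℕ) (H : Finset ℕ) (hH : H ⊆ Finset.range K)
    (hp : ∀ y ≤ K, (n + y).Prime ↔ y ∈ H) (i : ℕ) (hi : i < H.card) :
    Nat.nth Nat.Prime (Nat.count Nat.Prime n + i) = n + Nat.nth (· ∈ H) i ∧
      Nat.nth (· ∈ H) i ∈ H := by
  classical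
  have hf : (Set.ofPred (· ∈ H)).Finite := H.finite_toSet
  have hcard : hf.toFinset.card = H.card := by
    congr 1
    ext y
    simp
  have hlt : i < hf.toFinset.card := by rw [hcard]; exact hi
  have h1 : Nat.nth (· ∈ H) i ∈ H := Nat.nth_mem_of_lt_card hf hlt
  have h2 : Nat.count (· ∈ H) (Nat.nth (· ∈ H) i) = i := Nat.count_nth_of_lt_card_finite hf hlt
  have h3 : Nat.nth (· ∈ H) i < K := Finset.mem_range.1 (hH h1)
  have h4 : Nat.count (fun k => (n + k).Prime) (Nat.nth (· ∈ H) i) =
      Nat.count (· ∈ H) (Nat.nth (· ∈ H) i) := by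
    apply le_antisymm
    · exact Nat.count_mono_left (fun k hk hk' => (hp k (by omega)).1 hk')
    · exact Nat.count_mono_left (fun k hk hk' => (hp k (by omega)).2 hk')
  have h5 : Nat.count Nat.Prime (n + Nat.nth (· ∈ H) i) = Nat.count Nat.Prime n + i := by
    rw [Nat.count_add, h4, h2]
  refine ⟨?_, h1⟩
  rw [← h5]
  exact Nat.nth_count ((hp _ h3.le).2 h1)

/-- the starting points of a given pattern: `Nat.nth Nat.Prime (a + 1 + j)` is the prime with the number
`a + 2 + j` if the first prime `2` has the number `1` -/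
def G (u b d e k : ℕ) (g : ℕ → ℕ) : Set ℕ :=
  {a | 3 ≤ a ∧ a ≡ b [MOD u] ∧ ∀ j ≤ k,
    Nat.nth Nat.Prime (a + 1 + j) = Nat.nth Nat.Prime (a + 1) + g j ∧
    Nat.nth Nat.Prime (a + 1 + j) ≡ e [MOD d]}

lemma dense (u b d e k s : ℕ) (hu : 1 ≤ u) (hd : 0 < d) (he : Nat.Coprime e d) (hs : s ≤ k) :
    ∃ C B y0 : ℕ, ∀ y : ℕ, y0 ≤ y → ∃ g : ℕ → ℕ, (∀ j ≤ k, g j ≤ C) ∧
      ∃ S : Finset ℕ, S ⊆ Icc 1 y ∧ (∀ a ∈ S, a ∈ G u b d e k g ∧ a + s ≤ y) ∧
        (y : ℝ) ≤ S.card * Real.log y ^ B := by
  classical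
  obtain ⟨C, r, B, δ, hδ, hmain⟩ := Pool.Agent.V8H2.MQ.strings_count 1 (fun n _ => by simp)
    (fun p hp => ⟨1, by
      simp only [eval_one, mul_one]
      intro h
      have := Int.le_of_dvd (by norm_num) h
      have := hp.two_le
      omega⟩) d e hd (fun p hp hpd => by
      simp only [eval_one, mul_one]
      intro h
      have h1 : p ∣ e := by exact_mod_cast h
      exact hp.one_lt.ne' (Nat.eq_one_of_dvd_coprimes he h1 hpd)) (u + k)
  have hlogN : Tendsto (fun N : ℕ => Real.log N) atTop atTop :=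
    Real.tendsto_log_atTop.comp tendsto_natCast_atTop_atTop
  obtain ⟨N0, hN0⟩ := eventually_atTop.1 (hmain.and ((eventually_ge_atTop 8).and
    (hlogN.eventually_ge_atTop (3 * (u : ℝ) + 1))))
  refine ⟨C, B + 1, 2 * N0 + 1, fun y hy => ?_⟩
  obtain ⟨⟨H, hH, hHm, A, hA1, hA2⟩, hN8, hNlog⟩ := hN0 (y / 2) (by omega)
  set N := y / 2 with hN
  have hHC : ∀ h ∈ H, h ≤ C := fun h hh => (Finset.mem_range.1 (hH hh)).le
  -- the most popular shift
  obtain ⟨t, ht, hAt⟩ : ∃ t < u, A.card ≤
      u * (A.filter (fun n => Nat.count Nat.Prime n + t ≡ b + 1 [MOD u])).card := by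
    by_contra hcon
    push Not at hcon
    have h1 : A ⊆ (Finset.range u).biUnion
        (fun t => A.filter (fun n => Nat.count Nat.Prime n + t ≡ b + 1 [MOD u])) := by
      intro n hn
      rw [mem_biUnion]
      refine ⟨((b + 1) + (u - 1) * Nat.count Nat.Prime n) % u, Finset.mem_range.2 (Nat.mod_lt _ hu),
        mem_filter.2 ⟨hn, ?_⟩⟩
      have h2 : ((b + 1) + (u - 1) * Nat.count Nat.Prime n) % u ≡
          (b + 1) + (u - 1) * Nat.count Nat.Prime n [MOD u] := Nat.mod_modEq _ _
      refine (Nat.ModEq.add_left _ h2).trans ?_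
      have h3 : Nat.count Nat.Prime n + (b + 1 + (u - 1) * Nat.count Nat.Prime n) =
          b + 1 + u * Nat.count Nat.Prime n := by
        obtain ⟨v, rfl⟩ : ∃ v, u = v + 1 := ⟨u - 1, by omega⟩
        rw [Nat.add_sub_cancel]
        ring
      rw [h3]
      unfold Nat.ModEq
      rw [Nat.add_mul_mod_self_left]
    have h2 := (card_le_card h1).trans card_biUnion_le
    have h3 : u * ∑ t ∈ Finset.range u,
        (A.filter (fun n => Nat.count Nat.Prime n + t ≡ b + 1 [MOD u])).card <
        u * A.card := by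
      rw [Finset.mul_sum]
      calc ∑ t ∈ Finset.range u, u * (A.filter (fun n =>
            Nat.count Nat.Prime n + t ≡ b + 1 [MOD u])).card
          < ∑ t ∈ Finset.range u, A.card := by
            apply Finset.sum_lt_sum_of_nonempty ⟨0, Finset.mem_range.2 hu⟩
            intro t ht
            exact hcon t (Finset.mem_range.1 ht)
        _ = u * A.card := by rw [sum_const, card_range, smul_eq_mul]
    have h4 := Nat.mul_le_mul_left u h2
    omega
  set At := A.filter (fun n => Nat.count Nat.Prime n + t ≡ b + 1 [MOD u]) with hAtdef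
  obtain ⟨η, hη⟩ : ∃ η : ℕ → ℕ, η = fun i => Nat.nth (· ∈ H) i := ⟨_, rfl⟩
  have key : ∀ n ∈ At, N < n ∧ n + C ≤ 2 * N ∧ 4 ≤ Nat.count Nat.Prime n ∧
      Nat.count Nat.Prime n + t ≡ b + 1 [MOD u] ∧ ∀ i ≤ u + k,
        Nat.nth Nat.Prime (Nat.count Nat.Prime n + i) = n + η i ∧ η i ≤ C ∧
        n + η i ≡ e [MOD d] := by
    intro n hn
    obtain ⟨hnA, hnt⟩ := mem_filter.1 hn
    obtain ⟨h1, h2, g1, g2⟩ := hA2 n hnA
    refine ⟨h1, h2, ?_, hnt, fun i hi => ?_⟩
    · have h3 : Nat.count Nat.Prime 8 ≤ Nat.count Nat.Prime n := Nat.count_monotone _ (by omega)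
      have h4 : Nat.count Nat.Prime 8 = 4 := by decide
      omega
    · obtain ⟨h3, h4⟩ := nth_pattern n C H hH g1 i (by omega)
      rw [hη]
      exact ⟨h3, hHC _ h4, (g2 _ h4).1⟩
  have hinj : Set.InjOn (fun n => Nat.count Nat.Prime n + t - 1) (At : Set ℕ) := by
    intro n hn n' hn' hnn
    obtain ⟨-, -, h3, -, h5⟩ := key n (mem_coe.1 hn)
    obtain ⟨-, -, h3', -, h5'⟩ := key n' (mem_coe.1 hn')
    have e1 : Nat.count Nat.Prime n + t = Nat.count Nat.Prime n' + t := by
      simp only at hnn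
      omega
    have h6 := (h5 t (by omega)).1
    have h7 := (h5' t (by omega)).1
    rw [e1, h7] at h6
    omega
  refine ⟨fun j => η (t + j) - η t, fun j hj => ?_, At.image (fun n => Nat.count Nat.Prime n + t - 1),
    ?_, ?_, ?_⟩
  · by_cases hne : At.Nonempty
    · obtain ⟨n, hn⟩ := hne
      have := ((key n hn).2.2.2.2 (t + j) (by omega)).2.1
      simp only
      omega
    · exfalso
      rw [not_nonempty_iff_eq_empty] at hne
      rw [hne, card_empty, mul_zero] at hAt
      have h1 : (A.card : ℝ) = 0 := by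
        have : A.card = 0 := by omega
        exact_mod_cast this
      have h2 : (0 : ℝ) < N / Real.log N ^ B := by
        have h3 : (0 : ℝ) < N := by exact_mod_cast (by omega : 0 < N)
        have h4 : (0 : ℝ) < Real.log N := by
          have : (0 : ℝ) ≤ u := Nat.cast_nonneg u
          linarith
        positivity
      linarith
  · intro a ha
    obtain ⟨n, hn, rfl⟩ := mem_image.1 ha
    obtain ⟨h1, h2, h3, h4, h5⟩ := key n hn
    have h6 := (h5 t (by omega)).1
    have h6' := (h5 t (by omega)).2.1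
    have h7 := Nat.add_two_le_nth_prime (Nat.count Nat.Prime n + t)
    rw [mem_Icc]
    omega
  · intro a ha
    obtain ⟨n, hn, rfl⟩ := mem_image.1 ha
    obtain ⟨h1, h2, h3, h4, h5⟩ := key n hn
    have e0 : Nat.count Nat.Prime n + t - 1 + 1 = Nat.count Nat.Prime n + t := by omega
    refine ⟨⟨by omega, ?_, fun j hj => ?_⟩, ?_⟩
    · apply Nat.ModEq.add_right_cancel' 1
      rw [e0]
      exact h4
    · have h6 := h5 t (by omega)
      have h7 := h5 (t + j) (by omega)
      have h8 : Nat.nth Nat.Prime (Nat.count Nat.Prime n + t) ≤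
          Nat.nth Nat.Prime (Nat.count Nat.Prime n + (t + j)) :=
        Nat.nth_monotone Nat.infinite_setOfPred_prime (by omega)
      rw [e0, add_assoc (Nat.count Nat.Prime n) t j, h6.1, h7.1]
      rw [h6.1, h7.1] at h8
      refine ⟨?_, h7.2.2⟩
      change n + η (t + j) = n + η t + (η (t + j) - η t)
      omega
    · have h6 := h5 (t + s) (by omega)
      have h7 := Nat.add_two_le_nth_prime (Nat.count Nat.Prime n + (t + s))
      omega
  · rw [card_image_of_injOn hinj]
    have hu0 : (0 : ℝ) ≤ u := Nat.cast_nonneg u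
    have hl : 0 < Real.log N := by linarith
    have hNpos : (0 : ℝ) < N := by exact_mod_cast (by omega : 0 < N)
    have hlogle : Real.log N ≤ Real.log y := by
      apply Real.log_le_log hNpos
      exact_mod_cast (by omega : N ≤ y)
    have h1 : (A.card : ℝ) ≤ u * At.card := by exact_mod_cast hAt
    have h2 : (N : ℝ) ≤ u * At.card * Real.log N ^ B := by
      rw [div_le_iff₀ (by positivity)] at hA1
      refine hA1.trans ?_
      gcongr
    have h3 : (y : ℝ) ≤ 3 * N := by exact_mod_cast (by omega : y ≤ 3 * N)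
    calc (y : ℝ) ≤ 3 * (u * At.card * Real.log N ^ B) := by linarith
      _ = At.card * (Real.log N ^ B * (3 * u)) := by ring
      _ ≤ At.card * (Real.log y ^ B * Real.log y) := by
          gcongr
          linarith
      _ = _ := by ring

end Pool.Agent.V8H84.BG
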